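import Mathlib

/-!
Minimality of the topology of pointwise convergence among Hausdorff semigroup topologies on the
endomorphism monoid of a countable structure with oligomorphic automorphism group.
-/

open FirstOrder FirstOrder.Language Set Filter Topology

universe u v w

namespace Pool.Agent.Lib.MP_6e9b54_lc

variable {L : FirstOrder.Language.{u, v}} {A : Type w} [L.Structure A]

/-- A function which is finitely approximated by endomorphisms is an endomorphism. -/
theorem exists_hom_of_approx (h : A → A)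
    (H : ∀ F : Finset A, ∃ f : A →[L] A, ∀ a ∈ F, f a = h a) : ∃ f : A →[L] A, ∀ a, f a = h a := by
  classical
  refine ⟨⟨h, ?_, ?_⟩, fun a => rfl⟩
  · intro n F x
    obtain ⟨f, hf⟩ := H (insert (Structure.funMap F x) (Finset.univ.image x))
    have h1 := hf (Structure.funMap F x) (by simp)
    have h2 : ∀ i, f (x i) = h (x i) := fun i => hf (x i) (by simp)
    have h3 : (h ∘ x) = (f ∘ x) := by funext i; exact (h2 i).symm
    rw [← h1, h3]
    exact f.map_fun F x
  · intro n r x hx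
    obtain ⟨f, hf⟩ := H (Finset.univ.image x)
    have h2 : ∀ i, f (x i) = h (x i) := fun i => hf (x i) (by simp)
    have h3 : (h ∘ x) = (f ∘ x) := by funext i; exact (h2 i).symm
    rw [h3]
    exact f.map_rel r x hx

/-- The topology of pointwise convergence. -/
@[instance_reducible]
def pw (L : FirstOrder.Language.{u, v}) (A : Type w) [L.Structure A] :
    TopologicalSpace (A →[L] A) :=
  TopologicalSpace.induced (fun f : A →[L] A => (f : A → A))
    (@Pi.topologicalSpace A (fun _ => A) (fun _ => ⊥))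

theorem isOpen_pw_iff (s : Set (A →[L] A)) : IsOpen[pw L A] s ↔
    ∀ f ∈ s, ∃ F : Finset A, ∀ g : A →[L] A, (∀ a ∈ F, g a = f a) → g ∈ s := by
  classical
  let _ : TopologicalSpace A := ⊥
  have : DiscreteTopology A := ⟨rfl⟩
  constructor
  · intro hs f hf
    obtain ⟨t, ht, rfl⟩ := isOpen_induced_iff.1 hs
    obtain ⟨I, u, hu, hsub⟩ := isOpen_pi_iff.1 ht (f : A → A) hf
    refine ⟨I, fun g hg => ?_⟩
    apply hsub
    intro a ha
    have h1 : (fun f : A →[L] A => (f : A → A)) g a = f a := hg a ha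
    rw [h1]
    exact (hu a ha).2
  · intro h
    have : s = ⋃ f : s, (fun g : A →[L] A => (g : A → A)) ⁻¹'
        (Set.pi ((h f f.2).choose : Set A) (fun a => {(f : A →[L] A) a})) := by
      ext g
      simp only [Set.mem_iUnion, Set.mem_preimage, Set.mem_pi, Set.mem_singleton_iff,
        Finset.mem_coe]
      constructor
      · intro hg
        exact ⟨⟨g, hg⟩, fun a _ => rfl⟩
      · rintro ⟨f, hf⟩
        exact (h f f.2).choose_spec g hf
    rw [this]
    refine @isOpen_iUnion _ _ (pw L A) _ (fun f => ?_)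
    refine isOpen_induced_iff.2 ⟨_, ?_, rfl⟩
    exact isOpen_set_pi (Finset.finite_toSet _) (fun a _ => isOpen_discrete _)

section core

variable (e : ℕ ≃ A) (U : Ultrafilter (A →[L] A))

/-- `U`-almost all `s` satisfy: `(e|k, s∘e|k)` is conjugate to `(x|k, y|k)`. -/
def Good (k : ℕ) (xy : (ℕ → A) × (ℕ → A)) : Prop :=
  ∀ᶠ s in (U : Filter (A →[L] A)), ∃ g : A ≃[L] A, (∀ i < k, g (e i) = xy.1 i) ∧
    ∀ i < k, g (s (e i)) = xy.2 i

theorem Good.congr {k : ℕ} {xy xy' : (ℕ → A) × (ℕ → A)} (h : Good e U k xy)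
    (h1 : ∀ i < k, xy'.1 i = xy.1 i) (h2 : ∀ i < k, xy'.2 i = xy.2 i) : Good e U k xy' := by
  refine Filter.Eventually.mono h ?_
  rintro s ⟨g, hg1, hg2⟩
  exact ⟨g, fun i hi => (hg1 i hi).trans (h1 i hi).symm, fun i hi => (hg2 i hi).trans (h2 i hi).symm⟩

theorem Good.step (horb : ∀ n : ℕ, ∃ s : Finset (Fin n ⊕ Fin n → A), ∀ a : Fin n ⊕ Fin n → A,
      ∃ b ∈ s, ∃ g : A ≃[L] A, ∀ i, g (b i) = a i)
    {k : ℕ} (xy : (ℕ → A) × (ℕ → A)) (h : Good e U k xy) :
    ∃ xy' : (ℕ → A) × (ℕ → A), Good e U (k + 1) xy' ∧ (∀ i < k, xy'.1 i = xy.1 i) ∧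
      ∀ i < k, xy'.2 i = xy.2 i := by
  classical
  obtain ⟨s0, hs0⟩ := horb (k + 1)
  let tup : (A →[L] A) → (Fin (k + 1) ⊕ Fin (k + 1) → A) := fun s =>
    Sum.elim (fun i => e i) (fun i => s (e i))
  have h1 : ∀ᶠ s in (U : Filter (A →[L] A)), ∃ b ∈ (s0 : Set (Fin (k + 1) ⊕ Fin (k + 1) → A)),
      ∃ g : A ≃[L] A, ∀ i, g (b i) = tup s i :=
    Filter.Eventually.of_forall (fun s => hs0 (tup s))
  rw [Ultrafilter.eventually_exists_mem_iff s0.finite_toSet] at h1
  obtain ⟨b, -, hb⟩ := h1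
  obtain ⟨s1, ⟨g1, hg1⟩, h', hh1, hh2⟩ := (hb.and h).exists
  refine ⟨(fun i => if hi : i < k + 1 then h' (g1 (b (Sum.inl ⟨i, hi⟩))) else xy.1 i,
    fun i => if hi : i < k + 1 then h' (g1 (b (Sum.inr ⟨i, hi⟩))) else xy.2 i), ?_, ?_, ?_⟩
  · refine hb.mono ?_
    rintro s ⟨g, hg⟩
    refine ⟨(h'.comp g1).comp g.symm, fun i hi => ?_, fun i hi => ?_⟩
    · have := hg (Sum.inl ⟨i, hi⟩)
      simp only [tup, Sum.elim_inl] at this
      simp only [hi, dif_pos, Language.Equiv.comp_apply]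
      rw [← this, Language.Equiv.symm_apply_apply]
    · have := hg (Sum.inr ⟨i, hi⟩)
      simp only [tup, Sum.elim_inr] at this
      simp only [hi, dif_pos, Language.Equiv.comp_apply]
      rw [← this, Language.Equiv.symm_apply_apply]
  · intro i hi
    have hi' : i < k + 1 := by omega
    have := hg1 (Sum.inl ⟨i, hi'⟩)
    simp only [tup, Sum.elim_inl] at this
    simp only [hi', dif_pos]
    rw [this]
    exact hh1 i hi
  · intro i hi
    have hi' : i < k + 1 := by omega
    have := hg1 (Sum.inr ⟨i, hi'⟩)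
    simp only [tup, Sum.elim_inr] at this
    simp only [hi', dif_pos]
    rw [this]
    exact hh2 i hi

theorem exists_limit (horb : ∀ n : ℕ, ∃ s : Finset (Fin n ⊕ Fin n → A), ∀ a : Fin n ⊕ Fin n → A,
      ∃ b ∈ s, ∃ g : A ≃[L] A, ∀ i, g (b i) = a i) :
    ∃ xy : (ℕ → A) × (ℕ → A), ∀ k, Good e U k xy := by
  classical
  have h0 : Good e U 0 (e, e) := by
    refine Filter.Eventually.of_forall (fun s => ⟨Language.Equiv.refl L A, ?_, ?_⟩) <;>
    · intro i hi; omega
  let X : ∀ k : ℕ, {xy : (ℕ → A) × (ℕ → A) // Good e U k xy} := fun k =>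
    Nat.rec (motive := fun k => {xy : (ℕ → A) × (ℕ → A) // Good e U k xy}) ⟨(e, e), h0⟩
      (fun k p => ⟨(Good.step e U horb p.1 p.2).choose, (Good.step e U horb p.1 p.2).choose_spec.1⟩) k
  have hX1 : ∀ k, ∀ i < k, (X (k + 1)).1.1 i = (X k).1.1 i := fun k =>
    (Good.step e U horb (X k).1 (X k).2).choose_spec.2.1
  have hX2 : ∀ k, ∀ i < k, (X (k + 1)).1.2 i = (X k).1.2 i := fun k =>
    (Good.step e U horb (X k).1 (X k).2).choose_spec.2.2
  refine ⟨(fun i => (X (i + 1)).1.1 i, fun i => (X (i + 1)).1.2 i), fun k => ?_⟩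
  have hk1 : ∀ k, ∀ i < k, (X (i + 1)).1.1 i = (X k).1.1 i := by
    intro k
    induction k with
    | zero => intro i hi; omega
    | succ k ih =>
      intro i hi
      rcases Nat.lt_succ_iff_lt_or_eq.1 hi with h | h
      · rw [ih i h, hX1 k i h]
      · rw [h]
  have hk2 : ∀ k, ∀ i < k, (X (i + 1)).1.2 i = (X k).1.2 i := by
    intro k
    induction k with
    | zero => intro i hi; omega
    | succ k ih =>
      intro i hi
      rcases Nat.lt_succ_iff_lt_or_eq.1 hi with h | h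
      · rw [ih i h, hX2 k i h]
      · rw [h]
  exact (X k).2.congr e U (hk1 k) (hk2 k)

end core

/-- The core theorem, for structures with oligomorphic automorphism group. -/
theorem eq_pw_of_oligomorphic (e : ℕ ≃ A)
    (horb : ∀ n : ℕ, ∃ s : Finset (Fin n ⊕ Fin n → A), ∀ a : Fin n ⊕ Fin n → A,
      ∃ b ∈ s, ∃ g : A ≃[L] A, ∀ i, g (b i) = a i)
    (τ : TopologicalSpace (A →[L] A)) (hT2 : @T2Space _ τ)
    (hcomp : @Continuous _ _ (@instTopologicalSpaceProd _ _ τ τ) τ
      (fun p : (A →[L] A) × (A →[L] A) => p.1.comp p.2))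
    (hle : pw L A ≤ τ) : τ = pw L A := by
  classical
  refine le_antisymm ?_ hle
  have hopen : ∀ s : Set (A →[L] A), IsOpen[τ] s → IsOpen[pw L A] s := fun s hs => hle s hs
  -- reduce to the evaluation maps
  have key : ∀ (r : A →[L] A) (a : A), {s : A →[L] A | s a = r a} ∈ @nhds _ τ r := by
    intro r a
    rw [Filter.mem_iff_ultrafilter]
    intro U hU
    by_contra hnot
    have hne : ∀ᶠ s in (U : Filter (A →[L] A)), s a ≠ r a :=
      Ultrafilter.compl_mem_iff_notMem.2 hnot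
    obtain ⟨xy, hxy⟩ := exists_limit e U horb
    have hidx : ∀ F : Finset A, ∃ k, ∀ a ∈ F, e.symm a < k := by
      intro F
      refine ⟨(F.sup (fun a => e.symm a)) + 1, fun a ha => ?_⟩
      exact Nat.lt_succ_of_le (Finset.le_sup (f := fun a => e.symm a) ha)
    obtain ⟨t, ht⟩ : ∃ t : A →[L] A, ∀ a, t a = xy.1 (e.symm a) := by
      refine exists_hom_of_approx _ (fun F => ?_)
      obtain ⟨k, hk⟩ := hidx F
      obtain ⟨s, g, hg1, hg2⟩ := (hxy k).exists
      refine ⟨g.toHom, fun a ha => ?_⟩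
      have := hg1 (e.symm a) (hk a ha)
      simpa using this
    obtain ⟨q, hq⟩ : ∃ q : A →[L] A, ∀ a, q a = xy.2 (e.symm a) := by
      refine exists_hom_of_approx _ (fun F => ?_)
      obtain ⟨k, hk⟩ := hidx F
      obtain ⟨s, g, hg1, hg2⟩ := (hxy k).exists
      refine ⟨g.toHom.comp s, fun a ha => ?_⟩
      have := hg2 (e.symm a) (hk a ha)
      simpa using this
    -- the limit is `t ∘ r`
    have hlim : q = t.comp r := by
      by_contra hne'
      obtain ⟨O1, O2, hO1, hO2, hq1, htr, hdisj⟩ := @t2_separation _ τ hT2 _ _ hne'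
      have hpre : IsOpen[@instTopologicalSpaceProd _ _ τ τ]
          ((fun p : (A →[L] A) × (A →[L] A) => p.1.comp p.2) ⁻¹' O2) :=
        @Continuous.isOpen_preimage _ _ (@instTopologicalSpaceProd _ _ τ τ) τ _ hcomp O2 hO2
      obtain ⟨W, O', hW, hO', htW, hrO', hsub⟩ :=
        (@isOpen_prod_iff _ _ τ τ _).1 hpre t r htr
      obtain ⟨F1, hF1⟩ := (isOpen_pw_iff W).1 (hopen W hW) t htW
      obtain ⟨F2, hF2⟩ := (isOpen_pw_iff O1).1 (hopen O1 hO1) q hq1
      obtain ⟨k, hk⟩ := hidx (F1 ∪ F2)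
      have hO'U : O' ∈ (U : Filter (A →[L] A)) := hU (by let _ := τ; exact hO'.mem_nhds hrO')
      obtain ⟨s, ⟨g, hg1, hg2⟩, hsO'⟩ := ((hxy k).and hO'U).exists
      have hgW : g.toHom ∈ W := by
        refine hF1 _ (fun b hb => ?_)
        have := hg1 (e.symm b) (hk b (Finset.mem_union_left _ hb))
        rw [ht b, ← this]
        simp
      have hgs : g.toHom.comp s ∈ O2 := hsub (Set.mk_mem_prod hgW hsO')
      have hgs1 : g.toHom.comp s ∈ O1 := by
        refine hF2 _ (fun b hb => ?_)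
        have := hg2 (e.symm b) (hk b (Finset.mem_union_right _ hb))
        rw [hq b, ← this]
        simp
      exact Set.disjoint_left.1 hdisj hgs1 hgs
    obtain ⟨k, hk⟩ := hidx {a, r a}
    obtain ⟨s, ⟨g, hg1, hg2⟩, hs⟩ := ((hxy k).and hne).exists
    apply hs
    apply g.injective
    have h1 : g (s a) = q a := by
      have := hg2 (e.symm a) (hk a (by simp))
      rw [hq a, ← this]; simp
    have h2 : g (r a) = t (r a) := by
      have := hg1 (e.symm (r a)) (hk (r a) (by simp))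
      rw [ht (r a), ← this]; simp
    rw [h1, h2, hlim]
    rfl
  -- conclude
  intro s hs
  let _ := τ
  refine isOpen_iff_mem_nhds.2 (fun r hr => ?_)
  obtain ⟨F, hF⟩ := (isOpen_pw_iff s).1 hs r hr
  have hinter : (⋂ a ∈ F, {s : A →[L] A | s a = r a}) ∈ @nhds _ τ r :=
    (Filter.biInter_finset_mem F).2 (fun a _ => key r a)
  refine Filter.mem_of_superset hinter (fun g hg => hF g (fun a ha => ?_))
  simp only [Set.mem_iInter, Set.mem_ofPred_eq] at hg
  exact hg a ha

end Pool.Agent.Lib.MP_6e9b54_lc
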