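import Mathlib

/-!
Omitting types for one non-principal partial type, over a countable language.
-/

open FirstOrder FirstOrder.Language Cardinal Set

universe u v w

namespace Pool.Agent.Lib.MP_6e9b54_lc

variable {L : FirstOrder.Language.{u, v}} {A : Type w} [L.Structure A]

theorem realize_congr_freeVar {α : Type*} [DecidableEq α] (φ : L.Formula α) {v v' : α → A}
    (h : ∀ a ∈ φ.freeVarFinset, v a = v' a) : φ.Realize v ↔ φ.Realize v' := by
  have h1 := BoundedFormula.realize_restrictFreeVar (φ := φ) (f := id)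
    (v := fun a : φ.freeVarFinset => v a) (xs := (default : Fin 0 → A)) v (by simp)
  have h2 := BoundedFormula.realize_restrictFreeVar (φ := φ) (f := id)
    (v := fun a : φ.freeVarFinset => v a) (xs := (default : Fin 0 → A)) v' (by
      intro a
      simpa using h a a.2)
  exact h1.symm.trans h2

instance countable_formula [Countable L.Symbols] {α : Type*} [Countable α] :
    Countable (L.Formula α) := by
  have hc : L.card ≤ ℵ₀ := Cardinal.mk_le_aleph0
  have : Countable (Σ n, L.BoundedFormula α n) := by
    rw [← Cardinal.mk_le_aleph0_iff]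
    refine (BoundedFormula.card_le).trans ?_
    refine max_le le_rfl ?_
    have h1 : Cardinal.lift.{max u v} #α ≤ ℵ₀ := by
      rw [Cardinal.lift_le_aleph0]; exact Cardinal.mk_le_aleph0
    have h2 := Cardinal.lift_le_aleph0.2 hc
    exact (add_le_add h1 h2).trans (by simp)
  have hinj : Function.Injective (fun φ : L.Formula α => (⟨0, φ⟩ : Σ n, L.BoundedFormula α n)) := by
    intro φ ψ h
    simpa using h
  exact hinj.countable

/-- Consistent formulas (relative to `A`) in countably many free variables, ordered by reverse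
implication in `A`. -/
def Cond (L : FirstOrder.Language.{u, v}) (A : Type w) [L.Structure A] : Type (max u v) :=
  {ψ : L.Formula ℕ // ∃ v : ℕ → A, ψ.Realize v}

instance : Preorder (Cond L A) where
  le p q := ∀ v : ℕ → A, q.1.Realize v → p.1.Realize v
  le_refl p v h := h
  le_trans p q r hpq hqr v h := hpq v (hqr v h)

theorem Cond.le_def {p q : Cond L A} : p ≤ q ↔ ∀ v : ℕ → A, q.1.Realize v → p.1.Realize v := Iff.rfl

/-- Evaluate a formula in `Option ℕ` with `none ↦ a`. -/
def ev (v : ℕ → A) (a : A) : Option ℕ → A := fun o => o.elim a v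

/-- The Henkin requirement. -/
def henkinSet (φ : L.Formula (Option ℕ)) : Set (Cond L A) :=
  {p | (∀ v : ℕ → A, p.1.Realize v → ∀ a, ¬ φ.Realize (ev v a)) ∨
    ∃ j : ℕ, ∀ v : ℕ → A, p.1.Realize v → φ.Realize (ev v (v j))}

theorem henkin_cofinal (φ : L.Formula (Option ℕ)) : IsCofinal (henkinSet (A := A) φ) := by
  classical
  intro p
  by_cases h : ∃ v : ℕ → A, p.1.Realize v ∧ ∃ a, φ.Realize (ev v a)
  · obtain ⟨v, hv, a, ha⟩ := h
    -- a fresh variable
    obtain ⟨j, hj⟩ := Infinite.exists_notMem_finset
      (p.1.freeVarFinset ∪ (φ.freeVarFinset.biUnion (fun o => o.toFinset)))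
    simp only [Finset.mem_union, Finset.mem_biUnion, Option.mem_toFinset, not_or, not_exists,
      not_and] at hj
    obtain ⟨hj1, hj2⟩ := hj
    let ψ : L.Formula ℕ := φ.relabel (fun o : Option ℕ => o.elim j id)
    have hψ : ∀ w : ℕ → A, ψ.Realize w ↔ φ.Realize (ev w (w j)) := by
      intro w
      simp only [ψ, Formula.realize_relabel]
      have : (w ∘ fun o : Option ℕ => o.elim j id) = ev w (w j) := by
        funext o; cases o <;> rfl
      rw [this]
    let v' : ℕ → A := Function.update v j a
    have h1 : p.1.Realize v' := by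
      refine (realize_congr_freeVar p.1 ?_).2 hv
      intro b hb
      have : b ≠ j := by rintro rfl; exact hj1 hb
      simp [v', this]
    have h2 : ψ.Realize v' := by
      rw [hψ]
      refine (realize_congr_freeVar φ ?_).2 ha
      intro o ho
      cases o with
      | none => simp [ev, v']
      | some b =>
        have : b ≠ j := by
          rintro rfl
          exact hj2 _ ho (by simp)
        simp [ev, v', this]
    refine ⟨⟨p.1 ⊓ ψ, v', by simp [h1, h2]⟩, Or.inr ⟨j, ?_⟩, ?_⟩
    · intro w hw
      have : ψ.Realize w := by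
        have := hw
        simp only [Formula.realize_inf] at this
        exact this.2
      exact (hψ w).1 this
    · intro w hw
      have := hw
      simp only [Formula.realize_inf] at this
      exact this.1
  · refine ⟨p, Or.inl ?_, le_refl p⟩
    intro v hv a ha
    exact h ⟨v, hv, a, ha⟩

/-- The requirement of omitting `q` at the tuple of variables `i`. -/
def omitSet {n : ℕ} (q : Set (L.Formula (Fin n))) (i : Fin n → ℕ) : Set (Cond L A) :=
  {p | ∃ χ ∈ q, ∀ v : ℕ → A, p.1.Realize v → ¬ χ.Realize (v ∘ i)}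

theorem omit_cofinal [Nonempty A] {n : ℕ} (q : Set (L.Formula (Fin n)))
    (hq : ∀ θ : L.Formula (Fin n), (∃ v : Fin n → A, θ.Realize v) →
      ∃ χ ∈ q, ∃ v : Fin n → A, θ.Realize v ∧ ¬ χ.Realize v) (i : Fin n → ℕ) :
    IsCofinal (omitSet (A := A) q i) := by
  classical
  intro p
  -- the set of `i`-projections of realizations of `p`
  let F : Finset ℕ := p.1.freeVarFinset ∪ Finset.univ.image i
  let i' : Fin n → F := fun k => ⟨i k, by simp [F]⟩
  have hFsub : (↑(p.1.freeVarFinset) : Set ℕ) ⊆ (F : Set ℕ) := by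
    intro x hx
    simp only [F, Finset.coe_union, Set.mem_union]
    exact Or.inl hx
  let ψ : L.Formula F := p.1.restrictFreeVar (Set.inclusion hFsub)
  have hψ : ∀ v : ℕ → A, ψ.Realize (fun x : F => v x) ↔ p.1.Realize v := by
    intro v
    exact BoundedFormula.realize_restrictFreeVar _ (by simp)
  have hdef : (∅ : Set A).Definable L {w : F → A | ψ.Realize w} :=
    Set.empty_definable_iff.2 ⟨ψ, rfl⟩
  have himg := hdef.image_comp i'
  obtain ⟨θ, hθ⟩ := Set.empty_definable_iff.1 himg
  have hθ' : ∀ w : Fin n → A, θ.Realize w ↔ ∃ v : ℕ → A, p.1.Realize v ∧ v ∘ i = w := by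
    intro w
    have hw : w ∈ ((fun g : F → A => g ∘ i') '' {w : F → A | ψ.Realize w}) ↔ θ.Realize w := by
      rw [hθ]; rfl
    rw [← hw]
    constructor
    · rintro ⟨g, hg, rfl⟩
      let v : ℕ → A := fun k => if hk : k ∈ F then g ⟨k, hk⟩ else Classical.arbitrary A
      have hv : (fun x : F => v x) = g := by
        funext x
        simp [v]
      refine ⟨v, ?_, ?_⟩
      · rw [← hψ, hv]; exact hg
      · funext k
        have := congrFun hv (i' k)
        exact this
    · rintro ⟨v, hv, rfl⟩
      exact ⟨fun x : F => v x, (hψ v).2 hv, rfl⟩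
  obtain ⟨v0, hv0⟩ := p.2
  obtain ⟨χ, hχ, w, hw, hwχ⟩ := hq θ ⟨v0 ∘ i, (hθ' _).2 ⟨v0, hv0, rfl⟩⟩
  obtain ⟨v, hv, rfl⟩ := (hθ' w).1 hw
  refine ⟨⟨p.1 ⊓ (χ.relabel i).not, v, ?_⟩, ⟨χ, hχ, ?_⟩, ?_⟩
  · simp only [Formula.realize_inf, Formula.realize_not, Formula.realize_relabel]
    exact ⟨hv, hwχ⟩
  · intro u hu
    simp only [Formula.realize_inf, Formula.realize_not, Formula.realize_relabel] at hu
    exact hu.2
  · intro u hu
    simp only [Formula.realize_inf, Formula.realize_not, Formula.realize_relabel] at hu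
    exact hu.1

/-- The ultrapower of `A` by a nonprincipal ultrafilter on `ℕ`. -/
abbrev UP (A : Type w) : Type w := ((Filter.hyperfilter ℕ : Ultrafilter ℕ) : Filter ℕ).Product (fun _ : ℕ => A)

/-- The class of a sequence. -/
noncomputable def cls (x : ℕ → A) : UP A := ((x : ℕ → A) : ((Filter.hyperfilter ℕ : Ultrafilter ℕ) : Filter ℕ).Product (fun _ : ℕ => A))

theorem cls_surj (a : UP A) : ∃ x : ℕ → A, cls x = a := Quotient.exists_rep a

theorem los [Nonempty A] {β : Type*} (φ : L.Formula β) (x : β → ℕ → A) (y : β → UP A)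
    (hy : ∀ b, y b = cls (x b)) :
    φ.Realize y ↔ ∀ᶠ l in ((Filter.hyperfilter ℕ : Ultrafilter ℕ) : Filter ℕ),
      φ.Realize (fun b => x b l) := by
  have : y = fun b => cls (x b) := funext hy
  rw [this]
  exact Ultraproduct.realize_formula_cast φ x

theorem eventually_ge_hyper (k : ℕ) :
    ∀ᶠ l in ((Filter.hyperfilter ℕ : Ultrafilter ℕ) : Filter ℕ), k ≤ l := by
  have h := (Filter.hyperfilter_le_cofinite (α := ℕ))
  rw [Nat.cofinite_eq_atTop] at h
  exact h (Filter.eventually_ge_atTop k)

theorem equivalent_UP [Nonempty A] : A ≅[L] (UP A) := by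
  rw [elementarilyEquivalent_iff]
  intro φ
  rw [Ultraproduct.sentence_realize]
  exact (Filter.eventually_const (f := ((Filter.hyperfilter ℕ : Ultrafilter ℕ) : Filter ℕ))).symm

/-- **Omitting types.** -/
theorem exists_omitting [Countable L.Symbols] [Nonempty A] {n : ℕ} (q : Set (L.Formula (Fin n)))
    (hq : ∀ θ : L.Formula (Fin n), (∃ v : Fin n → A, θ.Realize v) →
      ∃ χ ∈ q, ∃ v : Fin n → A, θ.Realize v ∧ ¬ χ.Realize v) :
    ∃ (N : Type w) (_ : L.Structure N), Countable N ∧ (A ≅[L] N) ∧
      ∀ v : Fin n → N, ∃ χ ∈ q, ¬ χ.Realize v := by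
  classical
  -- the generic sequence
  let ι := L.Formula (Option ℕ) ⊕ (Fin n → ℕ)
  have : Encodable ι := Encodable.ofCountable ι
  let D : ι → Order.Cofinal (Cond L A) := fun r => match r with
    | Sum.inl φ => ⟨henkinSet φ, henkin_cofinal φ⟩
    | Sum.inr i => ⟨omitSet q i, omit_cofinal q hq i⟩
  let p0 : Cond L A := ⟨⊤, fun _ => Classical.arbitrary A, by simp⟩
  let s : ℕ → Cond L A := Order.sequenceOfCofinals p0 D
  have hs : Monotone s := Order.sequenceOfCofinals.monotone p0 D
  have hD : ∀ r : ι, ∃ k, s k ∈ D r := fun r => ⟨_, Order.sequenceOfCofinals.encode_mem p0 D r⟩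
  choose v hv using fun k => (s k).2
  have hvk : ∀ k l, k ≤ l → (s k).1.Realize (v l) := fun k l hkl => hs hkl _ (hv l)
  have hev := eventually_ge_hyper
  let c : ℕ → UP A := fun j => cls (fun l : ℕ => v l j)
  have hmeets : L.MeetsDefinable (Set.range c) := by
    intro S hSne hS
    rw [Set.Definable₁, Set.definable_iff_exists_formula_sum] at hS
    obtain ⟨φ, hφ⟩ := hS
    obtain ⟨a, ha⟩ := hSne
    -- indices of parameters
    choose idx hidx using fun x : Set.range c => x.2
    let g : (Set.range c) ⊕ Fin 1 → Option ℕ := Sum.elim (fun x => some (idx x)) (fun _ => none)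
    let φ' : L.Formula (Option ℕ) := φ.relabel g
    have hφ' : ∀ b : UP A, φ'.Realize (fun o : Option ℕ => o.elim b c) ↔ b ∈ S := by
      intro b
      have h1 : φ'.Realize (fun o : Option ℕ => o.elim b c) ↔
          φ.Realize (Sum.elim (↑) (fun _ : Fin 1 => b)) := by
        simp only [φ', Formula.realize_relabel]
        have : ((fun o : Option ℕ => o.elim b c) ∘ g) = Sum.elim (↑) (fun _ : Fin 1 => b) := by
          funext o
          rcases o with o | o
          · simp only [Function.comp, g, Sum.elim_inl, Option.elim]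
            exact hidx o
          · simp [g]
        rw [this]
      rw [h1]
      have h2 : (fun _ : Fin 1 => b) ∈ {x : Fin 1 → UP A | x 0 ∈ S} ↔
          (fun _ : Fin 1 => b) ∈ {v : Fin 1 → UP A | φ.Realize (Sum.elim (↑) v)} := by
        rw [hφ]
      exact h2.symm
    obtain ⟨k, hk⟩ := hD (Sum.inl φ')
    obtain ⟨a', rfl⟩ := cls_surj a
    have hreal : φ'.Realize (fun o : Option ℕ => o.elim (cls a') c) := (hφ' _).2 ha
    rw [los φ' (fun o => o.elim a' (fun j l => v l j)) _ (by intro b; cases b <;> rfl)] at hreal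
    rcases hk with hk | ⟨j, hj⟩
    · exfalso
      obtain ⟨l, hl1, hl2⟩ := (hreal.and (hev k)).exists
      refine hk (v l) (hvk k l hl2) (a' l) ?_
      have : ev (v l) (a' l) = fun b : Option ℕ => (b.elim a' (fun j l => v l j)) l := by
        funext o; cases o <;> rfl
      rw [this]; exact hl1
    · refine ⟨c j, (hφ' _).1 ?_, ⟨j, rfl⟩⟩
      rw [los φ' (fun o => o.elim (fun l => v l j) (fun j l => v l j)) _
        (by intro b; cases b <;> rfl)]
      filter_upwards [hev k] with l hl
      have := hj (v l) (hvk k l hl)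
      have h3 : ev (v l) (v l j) =
          fun b : Option ℕ => (b.elim (fun l => v l j) (fun j l => v l j)) l := by
        funext o; cases o <;> rfl
      rw [← h3]; exact this
  have hcl := hmeets.closure_eq_self
  have hel := hmeets.isElementary_closure
  let S : L.ElementarySubstructure (UP A) := ⟨Substructure.closure L (Set.range c), hel⟩
  have hSmem : ∀ x : S, (x : UP A) ∈ Set.range c := by
    intro x
    rw [← hcl]; exact x.2
  refine ⟨S, inferInstance, ?_, ?_, ?_⟩
  · choose i hi using hSmem
    have hinj : Function.Injective i := by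
      intro x y h
      apply Subtype.ext
      rw [← hi x, ← hi y, h]
    exact hinj.countable
  · exact equivalent_UP.trans S.elementarilyEquivalent.symm
  · intro x
    choose i hi using fun k => hSmem (x k)
    obtain ⟨k, hk⟩ := hD (Sum.inr i)
    obtain ⟨χ, hχ, hno⟩ := hk
    refine ⟨χ, hχ, ?_⟩
    intro hreal
    have h1 : χ.Realize (fun k => (x k : UP A)) := (S.subtype.map_formula χ x).2 hreal
    rw [los χ (fun k l => v l (i k)) _ (fun b => (hi b).symm)] at h1
    obtain ⟨l, hl1, hl2⟩ := (h1.and (hev k)).exists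
    exact hno (v l) (hvk k l hl2) hl1

end Pool.Agent.Lib.MP_6e9b54_lc
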