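import Pool.Agent.Lib.MP_6e9b54_lc.OmittingTypes

/-!
The Ryll-Nardzewski theorem (the direction from categoricity to finitely many orbits on tuples),
for countable languages.
-/

open FirstOrder FirstOrder.Language Cardinal Set

universe u v w

namespace Pool.Agent.Lib.MP_6e9b54_lc

variable {L : FirstOrder.Language.{u, v}} {A : Type w} [L.Structure A]

/-- Isomorphic image of a countable model. -/
theorem exists_equiv_of_categorical [Countable L.Symbols] [Countable A] [Infinite A]
    (hcat : (ℵ₀ : Cardinal.{w}).Categorical (L.completeTheory A))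
    (N : Type w) [L.Structure N] [Countable N] (h : A ≅[L] N) : Nonempty (A ≃[L] N) := by
  have hNinf : Infinite N := by
    exact h.infinite_iff.1 inferInstance
  have hN : N ⊨ L.completeTheory A := by
    rw [h.completeTheory_eq]
    infer_instance
  exact hcat (Theory.ModelType.of _ A) (Theory.ModelType.of _ N) (Cardinal.mk_eq_aleph0 A)
    (Cardinal.mk_eq_aleph0 N)

/-- In a countable model of a categorical theory, the type of every tuple is isolated. -/
theorem exists_isolating [Countable L.Symbols] [Countable A] [Infinite A]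
    (hcat : (ℵ₀ : Cardinal.{w}).Categorical (L.completeTheory A)) {n : ℕ} (a : Fin n → A) :
    ∃ θ : L.Formula (Fin n), θ.Realize a ∧ ∀ b : Fin n → A, θ.Realize b →
      ∀ φ : L.Formula (Fin n), φ.Realize a ↔ φ.Realize b := by
  classical
  by_contra hcon
  push Not at hcon
  let q : Set (L.Formula (Fin n)) := {χ | χ.Realize a}
  have hq : ∀ θ : L.Formula (Fin n), (∃ v : Fin n → A, θ.Realize v) →
      ∃ χ ∈ q, ∃ v : Fin n → A, θ.Realize v ∧ ¬ χ.Realize v := by
    rintro θ ⟨v, hv⟩
    by_cases hθ : θ.Realize a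
    · obtain ⟨b, hb, φ, hφ⟩ := hcon θ hθ
      rcases hφ with ⟨h1, h2⟩ | ⟨h1, h2⟩
      · exact ⟨φ, h1, b, hb, h2⟩
      · refine ⟨φ.not, ?_, b, hb, ?_⟩
        · simp only [q, Set.mem_ofPred_eq, Formula.realize_not]; exact h1
        · simp only [Formula.realize_not, not_not]; exact h2
    · refine ⟨θ.not, ?_, v, hv, ?_⟩
      · simp only [q, Set.mem_ofPred_eq, Formula.realize_not]; exact hθ
      · simp only [Formula.realize_not, not_not]; exact hv
  obtain ⟨N, instN, hNc, hNe, hNo⟩ := exists_omitting q hq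
  obtain ⟨e⟩ := exists_equiv_of_categorical hcat N hNe
  obtain ⟨χ, hχ, hno⟩ := hNo (e ∘ a)
  apply hno
  have := (e.toElementaryEmbedding.map_formula χ a).2 hχ
  exact this

/-- Elementary relations: sets of pairs such that tuples of pairs satisfy the same formulas. -/
def ElemRel (L : FirstOrder.Language.{u, v}) {A : Type w} [L.Structure A] (R : Set (A × A)) :
    Prop :=
  ∀ (n : ℕ) (p : Fin n → A × A), (∀ i, p i ∈ R) → ∀ φ : L.Formula (Fin n),
    φ.Realize (fun i => (p i).1) ↔ φ.Realize (fun i => (p i).2)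

theorem ElemRel.swap {R : Set (A × A)} (h : ElemRel L R) : ElemRel L (Prod.swap '' R) := by
  intro n p hp φ
  have h1 : ∀ i, (p i).swap ∈ R := by
    intro i
    obtain ⟨x, hx, hxe⟩ := hp i
    rw [← hxe]
    simpa using hx
  exact (h n (fun i => (p i).swap) h1 φ).symm

theorem ElemRel.ext_left
    (hat : ∀ (n : ℕ) (a : Fin n → A), ∃ θ : L.Formula (Fin n), θ.Realize a ∧
      ∀ b : Fin n → A, θ.Realize b → ∀ φ : L.Formula (Fin n), φ.Realize a ↔ φ.Realize b)
    (R : Finset (A × A)) (h : ElemRel L (R : Set (A × A))) (a : A) :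
    ∃ b : A, ElemRel L (insert (a, b) (R : Set (A × A))) := by
  classical
  -- enumerate R
  let m := R.card
  let p : Fin m → A × A := fun i => (R.equivFin.symm i : A × A)
  have hpR : ∀ i, p i ∈ R := fun i => (R.equivFin.symm i).2
  have hpsurj : ∀ x ∈ R, ∃ i, p i = x := by
    intro x hx
    exact ⟨R.equivFin ⟨x, hx⟩, by simp [p]⟩
  let xa : Fin (m + 1) → A := Fin.snoc (fun i => (p i).1) a
  obtain ⟨θ, hθ, hiso⟩ := hat (m + 1) xa
  -- definable projection
  have hdef : (∅ : Set A).Definable L {w : Fin (m + 1) → A | θ.Realize w} :=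
    Set.empty_definable_iff.2 ⟨θ, rfl⟩
  have himg := hdef.image_comp (Fin.castSucc : Fin m → Fin (m + 1))
  obtain ⟨ψ, hψ⟩ := Set.empty_definable_iff.1 himg
  have hψ1 : ψ.Realize (fun i => (p i).1) := by
    have : (fun i => (p i).1) ∈ ((fun g : Fin (m + 1) → A => g ∘ (Fin.castSucc : Fin m → _)) ''
        {w : Fin (m + 1) → A | θ.Realize w}) := by
      refine ⟨xa, hθ, ?_⟩
      funext i
      simp [xa]
    rw [hψ] at this
    exact this
  have hψ2 : ψ.Realize (fun i => (p i).2) := (h m p hpR ψ).1 hψ1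
  have : (fun i => (p i).2) ∈ ((fun g : Fin (m + 1) → A => g ∘ (Fin.castSucc : Fin m → _)) ''
        {w : Fin (m + 1) → A | θ.Realize w}) := by
    rw [hψ]; exact hψ2
  obtain ⟨y, hy, hyp⟩ := this
  refine ⟨y (Fin.last m), ?_⟩
  intro n p' hp' φ
  -- every pair of p' is of the form (xa j, y j)
  have hidx : ∀ i, ∃ j : Fin (m + 1), p' i = (xa j, y j) := by
    intro i
    rcases hp' i with hi | hi
    · refine ⟨Fin.last m, ?_⟩
      rw [hi]
      simp [xa]
    · obtain ⟨j, hj⟩ := hpsurj _ hi
      refine ⟨Fin.castSucc j, ?_⟩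
      have h2 : y (Fin.castSucc j) = (p j).2 := congrFun hyp j
      rw [h2, ← hj]
      simp [xa]
  choose g hg using hidx
  have h1 : (fun i => (p' i).1) = xa ∘ g := by
    funext i; rw [hg i]; rfl
  have h2 : (fun i => (p' i).2) = y ∘ g := by
    funext i; rw [hg i]; rfl
  rw [h1, h2, ← Formula.realize_relabel, ← Formula.realize_relabel]
  exact hiso y hy _

/-- finite elementary relations, ordered by inclusion. -/
def FinElem (L : FirstOrder.Language.{u, v}) (A : Type w) [L.Structure A] : Type w :=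
  {R : Finset (A × A) // ElemRel L (R : Set (A × A))}

instance : Preorder (FinElem L A) where
  le p q := p.1 ⊆ q.1
  le_refl p := Finset.Subset.refl _
  le_trans p q r := Finset.Subset.trans

/-- Homogeneity: a finite elementary relation extends to an automorphism. -/
theorem exists_equiv_extending [Countable A]
    (hat : ∀ (n : ℕ) (a : Fin n → A), ∃ θ : L.Formula (Fin n), θ.Realize a ∧
      ∀ b : Fin n → A, θ.Realize b → ∀ φ : L.Formula (Fin n), φ.Realize a ↔ φ.Realize b)
    (R : Finset (A × A)) (h : ElemRel L (R : Set (A × A))) :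
    ∃ g : A ≃[L] A, ∀ x ∈ R, g x.1 = x.2 := by
  classical
  have : Encodable (A ⊕ A) := Encodable.ofCountable _
  have hfor : ∀ a : A, IsCofinal {p : FinElem L A | ∃ b, (a, b) ∈ p.1} := by
    intro a p
    obtain ⟨b, hb⟩ := ElemRel.ext_left hat p.1 p.2 a
    refine ⟨⟨insert (a, b) p.1, by simpa using hb⟩, ⟨b, by simp⟩, ?_⟩
    intro x hx
    simp [hx]
  have hback : ∀ b : A, IsCofinal {p : FinElem L A | ∃ a, (a, b) ∈ p.1} := by
    intro b p
    have hsw : ElemRel L ((p.1.image Prod.swap : Finset (A × A)) : Set (A × A)) := by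
      have := p.2.swap
      simpa using this
    obtain ⟨a, ha⟩ := ElemRel.ext_left hat _ hsw b
    have h2 := ha.swap
    refine ⟨⟨insert (a, b) p.1, ?_⟩, ⟨a, by simp⟩, ?_⟩
    · have heq : (Prod.swap '' insert (b, a) ((p.1.image Prod.swap : Finset (A × A)) : Set (A × A)))
          = ((insert (a, b) p.1 : Finset (A × A)) : Set (A × A)) := by
        rw [Set.image_insert_eq]
        simp [Set.image_image]
      rw [heq] at h2
      exact h2
    · intro x hx
      simp [hx]
  let D : A ⊕ A → Order.Cofinal (FinElem L A) := fun r => match r with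
    | Sum.inl a => ⟨_, hfor a⟩
    | Sum.inr b => ⟨_, hback b⟩
  let s : ℕ → FinElem L A := Order.sequenceOfCofinals ⟨R, h⟩ D
  have hs : Monotone s := Order.sequenceOfCofinals.monotone _ D
  have hD : ∀ r : A ⊕ A, ∃ k, s k ∈ D r := fun r =>
    ⟨_, Order.sequenceOfCofinals.encode_mem _ D r⟩
  let Rinf : Set (A × A) := {x | ∃ k, x ∈ (s k).1}
  have hRinf : ElemRel L Rinf := by
    intro n p hp φ
    choose k hk using hp
    let K := Finset.univ.sup k
    have hK : ∀ i, p i ∈ (s K).1 := fun i => hs (Finset.le_sup (f := k) (Finset.mem_univ i)) (hk i)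
    exact (s K).2 n p hK φ
  have hR0 : ∀ x ∈ R, x ∈ Rinf := fun x hx => ⟨0, hx⟩
  have htot : ∀ a, ∃ b, (a, b) ∈ Rinf := by
    intro a
    obtain ⟨k, b, hb⟩ := hD (Sum.inl a)
    exact ⟨b, k, hb⟩
  have hsur : ∀ b, ∃ a, (a, b) ∈ Rinf := by
    intro b
    obtain ⟨k, a, ha⟩ := hD (Sum.inr b)
    exact ⟨a, k, ha⟩
  have heq : ∀ a b a' b', (a, b) ∈ Rinf → (a', b') ∈ Rinf → (a = a' ↔ b = b') := by
    intro a b a' b' h1 h2
    have := hRinf 2 ![(a, b), (a', b')] (by intro i; fin_cases i <;> simpa)
      ((Term.var 0).equal (Term.var 1))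
    simpa using this
  choose f hf using htot
  choose g hg using hsur
  have hfg : ∀ b, f (g b) = b := fun b => (heq _ _ _ _ (hf (g b)) (hg b)).1 rfl
  have hgf : ∀ a, g (f a) = a := fun a => (heq _ _ _ _ (hg (f a)) (hf a)).2 rfl
  have hfR : ∀ a b, (a, b) ∈ Rinf → f a = b := fun a b hab => (heq _ _ _ _ (hf a) hab).1 rfl
  refine ⟨⟨⟨f, g, hgf, hfg⟩, ?_, ?_⟩, ?_⟩
  · intro n F x
    change f (Structure.funMap F x) = Structure.funMap F (f ∘ x)
    have := hRinf (n + 1) (fun i => (Fin.snoc (α := fun _ => A) x (Structure.funMap F x) i,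
        f (Fin.snoc (α := fun _ => A) x (Structure.funMap F x) i))) (fun i => hf _)
      ((Term.func F (fun i => Term.var (Fin.castSucc i))).equal (Term.var (Fin.last n)))
    simp only [Formula.realize_equal, Term.realize_func, Term.realize_var, Fin.snoc_castSucc,
      Fin.snoc_last, true_iff] at this
    exact this.symm
  · intro n r x
    change Structure.RelMap r (f ∘ x) ↔ Structure.RelMap r x
    have := hRinf n (fun i => (x i, f (x i))) (fun i => hf _)
      (r.formula (fun i => Term.var i))
    simp only [Formula.realize_rel, Term.realize_var] at this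
    exact this.symm
  · intro x hx
    exact hfR x.1 x.2 (hR0 x hx)

/-- Finitely many orbits on `n`-tuples. -/
theorem finite_orbits_fin [Countable L.Symbols] [Countable A] [Infinite A]
    (hcat : (ℵ₀ : Cardinal.{w}).Categorical (L.completeTheory A)) (n : ℕ) :
    ∃ s : Finset (Fin n → A), ∀ a : Fin n → A, ∃ b ∈ s, ∃ g : A ≃[L] A, ∀ i, g (b i) = a i := by
  classical
  have hat : ∀ (n : ℕ) (a : Fin n → A), ∃ θ : L.Formula (Fin n), θ.Realize a ∧
      ∀ b : Fin n → A, θ.Realize b → ∀ φ : L.Formula (Fin n), φ.Realize a ↔ φ.Realize b :=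
    fun n a => exists_isolating hcat a
  choose θ hθ hiso using hat n
  -- same type implies conjugate
  have hconj : ∀ a b : Fin n → A, (θ b).Realize a → ∃ g : A ≃[L] A, ∀ i, g (b i) = a i := by
    intro a b hab
    let R : Finset (A × A) := Finset.univ.image (fun i : Fin n => (b i, a i))
    have hR : ElemRel L (R : Set (A × A)) := by
      intro m p hp φ
      have : ∀ i, ∃ j, p i = (b j, a j) := by
        intro i
        have := hp i
        simp only [R, Finset.coe_image, Finset.coe_univ, Set.image_univ, Set.mem_range] at this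
        obtain ⟨j, hj⟩ := this
        exact ⟨j, hj.symm⟩
      choose g hg using this
      have h1 : (fun i => (p i).1) = b ∘ g := by funext i; rw [hg i]; rfl
      have h2 : (fun i => (p i).2) = a ∘ g := by funext i; rw [hg i]; rfl
      rw [h1, h2, ← Formula.realize_relabel, ← Formula.realize_relabel]
      exact hiso b a hab _
    obtain ⟨g, hg⟩ := exists_equiv_extending (fun n a => exists_isolating hcat a) R hR
    exact ⟨g, fun i => hg (b i, a i) (by
      simp only [R, Finset.mem_image, Finset.mem_univ, true_and]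
      exact ⟨i, rfl⟩)⟩
  by_contra hcon
  push Not at hcon
  -- a sequence escaping all isolating formulas
  obtain ⟨enum, henum⟩ := exists_surjective_nat (Fin n → A)
  have hesc : ∀ k : ℕ, ∃ a : Fin n → A, ∀ j ≤ k, ¬ (θ (enum j)).Realize a := by
    intro k
    obtain ⟨a, ha⟩ := hcon ((Finset.range (k + 1)).image enum)
    refine ⟨a, fun j hj hre => ?_⟩
    obtain ⟨g, hg⟩ := hconj a (enum j) hre
    obtain ⟨i, hi⟩ := ha (enum j) (Finset.mem_image_of_mem _ (by simp; omega)) g
    exact hi (hg i)
  choose z hz using hesc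
  let c : Fin n → UP A := fun i => cls (fun k => z k i)
  have hc : ∀ b : Fin n → A, ¬ (θ b).Realize c := by
    intro b hb
    obtain ⟨j, rfl⟩ := henum b
    rw [los (θ (enum j)) (fun i k => z k i) _ (fun i => rfl)] at hb
    obtain ⟨k, hk1, hk2⟩ := (hb.and (eventually_ge_hyper j)).exists
    exact hz k j hk2 hk1
  -- a countable elementary substructure containing c
  have hUPinf : ℵ₀ ≤ #(UP A) := by
    have : Infinite (UP A) := (equivalent_UP (L := L) (A := A)).infinite_iff.1 inferInstance
    exact Cardinal.aleph0_le_mk _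
  obtain ⟨S, hS, hScard⟩ := exists_elementarySubstructure_card_eq L (Set.range c)
    (ℵ₀ : Cardinal.{w}) le_rfl
    (by
      simp only [Cardinal.lift_id, Cardinal.mk_le_aleph0_iff]
      exact (Set.countable_range c).to_subtype)
    (by
      have hc : L.card ≤ ℵ₀ := Cardinal.mk_le_aleph0
      have h1 := Cardinal.lift_le_aleph0.{max u v, w}.2 hc
      exact h1.trans (by simp))
    (by simpa using hUPinf)
  have hSc : Countable S := by
    rw [← Cardinal.mk_le_aleph0_iff]
    simp only [Cardinal.lift_id] at hScard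
    exact hScard.le
  obtain ⟨e⟩ := exists_equiv_of_categorical hcat S
    ((equivalent_UP (L := L) (A := A)).trans S.elementarilyEquivalent.symm)
  let c' : Fin n → S := fun i => ⟨c i, hS ⟨i, rfl⟩⟩
  let b : Fin n → A := e.symm ∘ c'
  have hb := hθ b
  have h1 : (θ b).Realize (e ∘ b) := (e.toElementaryEmbedding.map_formula (θ b) b).2 hb
  have h2 : e ∘ b = c' := by
    funext i
    simp [b]
  rw [h2] at h1
  have h3 : (θ b).Realize c := (S.subtype.map_formula (θ b) c').2 h1
  exact hc b h3

/-- Finitely many orbits on `ι`-tuples, `ι` finite. -/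
theorem finite_orbits [Countable L.Symbols] [Countable A] [Infinite A]
    (hcat : (ℵ₀ : Cardinal.{w}).Categorical (L.completeTheory A)) (ι : Type*) [Finite ι] :
    ∃ s : Finset (ι → A), ∀ a : ι → A, ∃ b ∈ s, ∃ g : A ≃[L] A, ∀ i, g (b i) = a i := by
  classical
  obtain ⟨n, ⟨e⟩⟩ := Finite.exists_equiv_fin ι
  obtain ⟨s, hs⟩ := finite_orbits_fin hcat n
  refine ⟨s.image (fun b => b ∘ e), fun a => ?_⟩
  obtain ⟨b, hb, g, hg⟩ := hs (a ∘ e.symm)
  refine ⟨b ∘ e, Finset.mem_image_of_mem _ hb, g, fun i => ?_⟩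
  simpa using hg (e i)

end Pool.Agent.Lib.MP_6e9b54_lc
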